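import Pool.Agent.Lib.MP_d0323d_co.Geo.Real

/-!
# Edge relations imply simple connectivity of the realisation
-/

set_option autoImplicit false
set_option linter.unusedSectionVars false

namespace Pool.Agent.SC.Geo

open Set Topology Path.Homotopic

variable {V : Type} [Fintype V] [DecidableEq V] {K : Set (Finset V)}

lemma exists_in_clo (hK : Down K) {s : Finset V} (hs : s ∈ K) {x y : ↥(Cx K)}
    (hx : (x : V → ℝ) ∈ clo s) (hy : (y : V → ℝ) ∈ clo s) :
    ∃ γ : Path x y, ∀ t, (γ t : V → ℝ) ∈ clo s := by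
  have hpc : IsPathConnected (clo s) := (convex_clo s).isPathConnected ⟨_, hx⟩
  obtain ⟨γ, hγ⟩ := hpc.joinedIn _ hx _ hy
  refine ⟨⟨⟨fun t => ⟨γ t, clo_sub hK hs (hγ t)⟩, by fun_prop⟩, by ext; simp, by ext; simp⟩, ?_⟩
  intro t
  exact hγ t

/-- the class of paths inside the closed simplex `s` -/
noncomputable def cls (hK : Down K) {s : Finset V} (hs : s ∈ K) {x y : ↥(Cx K)}
    (hx : (x : V → ℝ) ∈ clo s) (hy : (y : V → ℝ) ∈ clo s) : Path.Homotopic.Quotient x y :=
  Path.Homotopic.Quotient.mk (exists_in_clo hK hs hx hy).choose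

lemma cls_eq (hK : Down K) {s : Finset V} (hs : s ∈ K) {x y : ↥(Cx K)}
    (hx : (x : V → ℝ) ∈ clo s) (hy : (y : V → ℝ) ∈ clo s) (γ : Path x y)
    (hγ : ∀ t, (γ t : V → ℝ) ∈ clo s) : Path.Homotopic.Quotient.mk γ = cls hK hs hx hy := by
  unfold cls
  rw [Path.Homotopic.Quotient.eq]
  have : SimplyConnectedSpace ↥(clo s) := scs_clo (by
    obtain ⟨i, hi⟩ := sup_nonempty hx.1
    exact ⟨i, hx.2 hi⟩)
  exact homotopic_of_mem (clo_sub hK hs) _ _ hγ (exists_in_clo hK hs hx hy).choose_spec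

lemma cls_mono (hK : Down K) {s t : Finset V} (hs : s ∈ K) (ht : t ∈ K) (hst : s ⊆ t)
    {x y : ↥(Cx K)} (hx : (x : V → ℝ) ∈ clo s) (hy : (y : V → ℝ) ∈ clo s)
    (hx' : (x : V → ℝ) ∈ clo t) (hy' : (y : V → ℝ) ∈ clo t) :
    cls hK hs hx hy = cls hK ht hx' hy' :=
  cls_eq hK ht hx' hy' _ (fun u => by
    have := (exists_in_clo hK hs hx hy).choose_spec u
    exact ⟨this.1, this.2.trans hst⟩)

lemma cls_trans (hK : Down K) {s : Finset V} (hs : s ∈ K) {x y z : ↥(Cx K)}
    (hx : (x : V → ℝ) ∈ clo s) (hy : (y : V → ℝ) ∈ clo s) (hz : (z : V → ℝ) ∈ clo s) :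
    (cls hK hs hx hy).trans (cls hK hs hy hz) = cls hK hs hx hz := by
  have h1 := (exists_in_clo hK hs hx hy).choose_spec
  have h2 := (exists_in_clo hK hs hy hz).choose_spec
  refine cls_eq hK hs hx hz ((exists_in_clo hK hs hx hy).choose.trans
    (exists_in_clo hK hs hy hz).choose) (fun t => ?_)
  rw [Path.trans_apply]
  split_ifs
  · exact h1 _
  · exact h2 _

lemma cls_self (hK : Down K) {s : Finset V} (hs : s ∈ K) {x : ↥(Cx K)}
    (hx : (x : V → ℝ) ∈ clo s) : cls hK hs hx hx = Path.Homotopic.Quotient.refl x :=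
  (cls_eq hK hs hx hx (Path.refl x) (fun _ => hx)).symm

lemma cls_symm (hK : Down K) {s : Finset V} (hs : s ∈ K) {x y : ↥(Cx K)}
    (hx : (x : V → ℝ) ∈ clo s) (hy : (y : V → ℝ) ∈ clo s) :
    (cls hK hs hx hy).symm = cls hK hs hy hx := by
  have h := cls_trans hK hs hy hx hy
  rw [cls_self] at h
  calc (cls hK hs hx hy).symm
      = ((cls hK hs hy hx).trans (cls hK hs hx hy)).trans (cls hK hs hx hy).symm := by
        rw [h]; simp
    _ = cls hK hs hy hx := by simp

lemma symm_trans' {X : Type} [TopologicalSpace X] {a b c : X} (P : Path.Homotopic.Quotient a b)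
    (Q : Path.Homotopic.Quotient b c) : (P.trans Q).symm = Q.symm.trans P.symm := by
  have h : (Q.symm.trans P.symm).trans (P.trans Q) = Path.Homotopic.Quotient.refl c := by
    rw [Path.Homotopic.Quotient.trans_assoc, ← Path.Homotopic.Quotient.trans_assoc P.symm]
    simp
  calc (P.trans Q).symm = ((Q.symm.trans P.symm).trans (P.trans Q)).trans (P.trans Q).symm := by
        rw [h]; simp
    _ = _ := by rw [Path.Homotopic.Quotient.trans_assoc]; simp

section Full

variable (hK : Down K) (hE : ∀ i j : V, ({i, j} : Finset V) ∈ K)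
include hK hE

lemma vtx (i : V) : ({i} : Finset V) ∈ K := by simpa using hE i i

omit hK hE in
lemma vt_clo {i : V} (hi : ({i} : Finset V) ∈ K) {s : Finset V} (h : i ∈ s) :
    ((vt hi : ↥(Cx K)) : V → ℝ) ∈ clo s := by
  refine ⟨single_mem i, ?_⟩
  show sup (Pi.single i (1 : ℝ)) ⊆ s
  rw [sup_single]
  simpa using h

/-- the edge path class -/
noncomputable def edg (i j : V) :
    Path.Homotopic.Quotient (vt (vtx hK hE i)) (vt (vtx hK hE j)) :=
  cls hK (hE i j) (vt_clo _ (by simp)) (vt_clo _ (by simp))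

/-- the radial class from a point to a vertex of its support -/
noncomputable def rad (x : ↥(Cx K)) {v : V} (hv : (x : V → ℝ) v ≠ 0) :
    Path.Homotopic.Quotient x (vt (vtx hK hE v)) :=
  cls hK (sK x) ⟨sx x, Finset.Subset.refl _⟩ (vt_clo _ (mem_sup.mpr hv))

lemma edg_cls {s : Finset V} (hs : s ∈ K) {i j : V} (hi : i ∈ s) (hj : j ∈ s) :
    edg hK hE i j = cls hK hs (vt_clo _ hi) (vt_clo _ hj) := by
  unfold edg
  apply cls_mono
  intro a ha
  simp only [Finset.mem_insert, Finset.mem_singleton] at ha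
  rcases ha with rfl | rfl
  · exact hi
  · exact hj

lemma rad_edg (x : ↥(Cx K)) {v w : V} (hv : (x : V → ℝ) v ≠ 0) (hw : (x : V → ℝ) w ≠ 0) :
    (rad hK hE x hv).trans (edg hK hE v w) = rad hK hE x hw := by
  rw [edg_cls hK hE (sK x) (mem_sup.mpr hv) (mem_sup.mpr hw)]
  unfold rad
  exact cls_trans hK _ _ _ _

/-- edges of a simplex satisfy the triangle law -/
lemma edg_tri {s : Finset V} (hs : s ∈ K) {i j k : V} (hi : i ∈ s) (hj : j ∈ s) (hk : k ∈ s) :
    (edg hK hE i j).trans (edg hK hE j k) = edg hK hE i k := by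
  rw [edg_cls hK hE hs hi hj, edg_cls hK hE hs hj hk, edg_cls hK hE hs hi hk]
  exact cls_trans hK _ _ _ _

/-- the canonical class between two points -/
noncomputable def can (x y : ↥(Cx K)) : Path.Homotopic.Quotient x y :=
  ((rad hK hE x (ch_ne (sx x))).trans (edg hK hE _ _)).trans (rad hK hE y (ch_ne (sx y))).symm

variable (hT : ∀ i j k : V, (edg hK hE i j).trans (edg hK hE j k) = edg hK hE i k)
include hT

lemma can_eq (x y : ↥(Cx K)) {v w : V} (hv : (x : V → ℝ) v ≠ 0) (hw : (y : V → ℝ) w ≠ 0) :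
    can hK hE x y = ((rad hK hE x hv).trans (edg hK hE v w)).trans (rad hK hE y hw).symm := by
  unfold can
  have h1 := rad_edg hK hE x (ch_ne (sx x)) hv
  have h2 := rad_edg hK hE y hw (ch_ne (sx y))
  have h3 : ((edg hK hE (ch (sx x)) v).trans (edg hK hE v w)).trans (edg hK hE w (ch (sx y)))
      = edg hK hE (ch (sx x)) (ch (sx y)) := by rw [hT, hT]
  rw [← h1, ← h2, ← h3, symm_trans']
  simp only [Path.Homotopic.Quotient.trans_assoc]
  rw [← Path.Homotopic.Quotient.trans_assoc (edg hK hE w (ch (sx y)))]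
  simp

lemma can_trans (x y z : ↥(Cx K)) :
    (can hK hE x y).trans (can hK hE y z) = can hK hE x z := by
  have h := hT (ch (sx x)) (ch (sx y)) (ch (sx z))
  unfold can
  rw [← h]
  simp only [Path.Homotopic.Quotient.trans_assoc]
  rw [← Path.Homotopic.Quotient.trans_assoc (rad hK hE y (ch_ne (sx y))).symm]
  simp

lemma can_self (x : ↥(Cx K)) : can hK hE x x = Path.Homotopic.Quotient.refl x := by
  have h := can_trans hK hE hT x x x
  calc can hK hE x x = ((can hK hE x x).symm.trans (can hK hE x x)).trans (can hK hE x x) := by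
        simp
    _ = (can hK hE x x).symm.trans (can hK hE x x) := by rw [Path.Homotopic.Quotient.trans_assoc, h]
    _ = _ := by simp

/-- a path inside an open star is canonical -/
lemma star_can {x y : ↥(Cx K)} (γ : Path x y) (v : V) (h : ∀ t, (γ t : V → ℝ) v ≠ 0) :
    Path.Homotopic.Quotient.mk γ = can hK hE x y := by
  have hx : (x : V → ℝ) v ≠ 0 := by simpa using h 0
  have hy : (y : V → ℝ) v ≠ 0 := by simpa using h 1
  have hvv : edg hK hE v v = Path.Homotopic.Quotient.refl _ := by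
    unfold edg; exact cls_self hK _ _
  rw [can_eq hK hE hT x y hx hy, hvv, Path.Homotopic.Quotient.trans_refl]
  -- the path `x → v → y` inside the open star
  have : SimplyConnectedSpace ↥(ost K v) := scs_ost (vtx hK hE v)
  have hpc : IsPathConnected (ost K v) := (star_ost (vtx hK hE v)).isPathConnected
    ⟨⟨single_mem v, by rw [sup_single]; exact vtx hK hE v⟩, by simp⟩
  -- radial path inside the open star and inside the closed simplex
  have hrad : ∀ z : ↥(Cx K), ∀ hz : (z : V → ℝ) v ≠ 0, ∃ δ : Path z (vt (vtx hK hE v)),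
      (∀ t, (δ t : V → ℝ) ∈ ost K v) ∧ Path.Homotopic.Quotient.mk δ = rad hK hE z hz := by
    intro z hz
    have hcomb : ∀ t : unitInterval, (1 - (t : ℝ)) • (z : V → ℝ) + (t : ℝ) • (Pi.single v (1 : ℝ) : V → ℝ)
        ∈ ost K v ∩ clo (sup (z : V → ℝ)) := by
      intro t
      constructor
      · have := (star_ost (vtx hK hE v)) (show (z : V → ℝ) ∈ ost K v from ⟨z.2, hz⟩) t.2.1
          (sub_nonneg.mpr t.2.2) (by ring)
        rw [add_comm] at this
        exact this
      · exact (convex_clo _) ⟨sx z, Finset.Subset.refl _⟩ ⟨single_mem v, by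
          rw [sup_single]; simpa using mem_sup.mpr hz⟩ (sub_nonneg.mpr t.2.2) t.2.1 (by ring)
    refine ⟨⟨⟨fun t => ⟨_, (hcomb t).1.1⟩, by fun_prop⟩, by ext; simp, by ext; simp [vt]⟩, ?_, ?_⟩
    · intro t; exact (hcomb t).1
    · exact cls_eq hK _ _ _ _ (fun t => (hcomb t).2)
  obtain ⟨δx, hδx, hδx'⟩ := hrad x hx
  obtain ⟨δy, hδy, hδy'⟩ := hrad y hy
  rw [← hδx', ← hδy', ← Path.Homotopic.Quotient.mk_symm, ← Path.Homotopic.Quotient.mk_trans, Path.Homotopic.Quotient.eq]
  refine homotopic_of_mem (ost_sub K v) _ _ (fun t => ⟨(γ t).2, h t⟩) (fun t => ?_)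
  rw [Path.trans_apply]
  split_ifs
  · exact hδx _
  · exact hδy _

end Full

end Pool.Agent.SC.Geo
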