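import Pool.Agent.Lib.MP_d0323d_co.Geo.Back

/-!
# Edge relations imply simple connectivity of the realisation: the clopen argument
-/

set_option autoImplicit false
set_option linter.unusedSectionVars false

namespace Pool.Agent.SC.Geo

open Set Topology

variable {V : Type} [Fintype V] [DecidableEq V] {K : Set (Finset V)}

lemma scs_I : SimplyConnectedSpace unitInterval := by
  have : ContractibleSpace ↥(Set.Icc (0 : ℝ) 1) :=
    (convex_Icc (0 : ℝ) 1).contractibleSpace ⟨0, by simp⟩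
  exact SimplyConnectedSpace.ofContractible _

/-- a neighbourhood basis of intervals in `unitInterval` -/
lemma exists_joined (t₀ : unitInterval) {J : Set unitInterval} (hJ : J ∈ 𝓝 t₀) :
    ∀ᶠ t in 𝓝 t₀, ∃ ε : Path t₀ t, ∀ u, ε u ∈ J := by
  rw [Metric.mem_nhds_iff] at hJ
  obtain ⟨r, hr, hrJ⟩ := hJ
  filter_upwards [Metric.ball_mem_nhds t₀ hr] with t ht
  have hseg : ∀ u : unitInterval, (1 - (u : ℝ)) * (t₀ : ℝ) + (u : ℝ) * (t : ℝ) ∈ Set.Icc (0 : ℝ) 1 := by
    intro u
    have := convex_Icc (0 : ℝ) 1 t₀.2 t.2 (sub_nonneg.mpr u.2.2) u.2.1 (by ring)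
    simpa using this
  refine ⟨⟨⟨fun u => ⟨_, hseg u⟩, by fun_prop⟩, by ext; simp, by ext; simp⟩, ?_⟩
  intro u
  apply hrJ
  rw [Metric.mem_ball, Subtype.dist_eq, Real.dist_eq] at ht ⊢
  show |(1 - (u : ℝ)) * (t₀ : ℝ) + (u : ℝ) * (t : ℝ) - t₀| < r
  have h1 : (1 - (u : ℝ)) * (t₀ : ℝ) + (u : ℝ) * (t : ℝ) - t₀ = (u : ℝ) * ((t : ℝ) - t₀) := by ring
  rw [h1, abs_mul, abs_of_nonneg u.2.1]
  calc (u : ℝ) * |(t : ℝ) - t₀| ≤ 1 * |(t : ℝ) - t₀| :=
        mul_le_mul_of_nonneg_right u.2.2 (abs_nonneg _)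
    _ < r := by rw [one_mul]; exact ht

section Full

variable (hK : Down K) (hE : ∀ i j : V, ({i, j} : Finset V) ∈ K)
  (hT : ∀ i j k : V, (edg hK hE i j).trans (edg hK hE j k) = edg hK hE i k)
include hK hE hT

lemma all_can (γ : C(unitInterval, ↥(Cx K))) (t : unitInterval) (δ : Path (0 : unitInterval) t) :
    Path.Homotopic.Quotient.mk (δ.map γ.continuous) = can hK hE (γ 0) (γ t) := by
  have := scs_I
  set P : unitInterval → Prop := fun t => ∀ δ : Path (0 : unitInterval) t,
    Path.Homotopic.Quotient.mk (δ.map γ.continuous) = can hK hE (γ 0) (γ t) with hP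
  have hind : ∀ t : unitInterval, ∀ δ δ' : Path (0 : unitInterval) t,
      Path.Homotopic.Quotient.mk (δ.map γ.continuous)
        = Path.Homotopic.Quotient.mk (δ'.map γ.continuous) := by
    intro t δ δ'
    rw [Path.Homotopic.Quotient.eq]
    exact (SimplyConnectedSpace.paths_homotopic δ δ').map γ
  have hloc : ∀ t₀, ∀ᶠ t in 𝓝 t₀, (P t ↔ P t₀) := by
    intro t₀
    set v := ch (sx (γ t₀)) with hv
    have hv0 : (γ t₀ : V → ℝ) v ≠ 0 := ch_ne (sx (γ t₀))
    have hopen : IsOpen {t : unitInterval | (γ t : V → ℝ) v ≠ 0} := by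
      apply isOpen_ne_fun
      · have : Continuous (fun t : unitInterval => (γ t : V → ℝ)) := by fun_prop
        exact (continuous_apply v).comp this
      · exact continuous_const
    filter_upwards [exists_joined t₀ (hopen.mem_nhds hv0)] with t ht
    obtain ⟨ε, hε⟩ := ht
    have hcan : Path.Homotopic.Quotient.mk (ε.map γ.continuous) = can hK hE (γ t₀) (γ t) :=
      star_can hK hE hT _ v (fun u => hε u)
    obtain ⟨δ₀⟩ : Nonempty (Path (0 : unitInterval) t₀) := ⟨PathConnectedSpace.somePath _ _⟩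
    have htr : Path.Homotopic.Quotient.mk ((δ₀.trans ε).map γ.continuous)
        = (Path.Homotopic.Quotient.mk (δ₀.map γ.continuous)).trans (can hK hE (γ t₀) (γ t)) := by
      rw [Path.map_trans, Path.Homotopic.Quotient.mk_trans, hcan]
    constructor
    · intro h δ
      have h1 := h (δ₀.trans ε)
      rw [htr] at h1
      rw [hind t₀ δ δ₀]
      have h2 := can_trans hK hE hT (γ 0) (γ t) (γ t₀)
      rw [← h1, Path.Homotopic.Quotient.trans_assoc, can_trans hK hE hT, can_self hK hE hT,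
        Path.Homotopic.Quotient.trans_refl] at h2
      exact h2
    · intro h δ
      rw [hind t δ (δ₀.trans ε), htr, h δ₀, can_trans hK hE hT]
  have hlc : IsLocallyConstant P := by
    rw [IsLocallyConstant.iff_eventually_eq]
    intro t₀
    filter_upwards [hloc t₀] with t ht
    exact propext ht
  have h0 : P 0 := by
    intro δ
    rw [hind 0 δ (Path.refl 0), can_self hK hE hT]
    rfl
  have ht : P t = P 0 := hlc.apply_eq_of_preconnectedSpace t 0
  have : P t := by rw [ht]; exact h0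
  exact this δ

lemma path_can {x y : ↥(Cx K)} (γ : Path x y) :
    Path.Homotopic.Quotient.mk γ = can hK hE x y := by
  obtain ⟨f, rfl, rfl⟩ := γ
  let δ : Path (0 : unitInterval) 1 := ⟨ContinuousMap.id _, rfl, rfl⟩
  exact all_can hK hE hT f 1 δ

theorem scs_of_tri [Nonempty V] : SimplyConnectedSpace ↥(Cx K) := by
  rw [simply_connected_iff_paths_homotopic']
  refine ⟨⟨⟨vt (vtx hK hE (Classical.arbitrary V))⟩, fun x y => ?_⟩, fun {x y} p₁ p₂ => ?_⟩
  · obtain ⟨γ, _⟩ := Path.Homotopic.Quotient.mk_surjective (can hK hE x y)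
    exact ⟨γ⟩
  · rw [← Path.Homotopic.Quotient.eq, path_can hK hE hT p₁, path_can hK hE hT p₂]

end Full

end Pool.Agent.SC.Geo
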