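import Pool.Agent.Lib.MP_d0323d_co.Geo.Real

/-!
# Simple connectivity of the realisation trivialises every edge cocycle
-/

set_option autoImplicit false
set_option linter.unusedSectionVars false

namespace Pool.Agent.SC.Geo

open Set Topology

variable {V : Type} [Fintype V] [DecidableEq V] {K : Set (Finset V)}

/-- the realisation is locally path connected -/
instance lpc : LocallyPathConnectedSpace ↥(Cx K) := by
  refine LocallyPathConnectedSpace.of_bases (p := fun (x : ↥(Cx K)) (r : ℝ) =>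
    0 < r ∧ ∀ i ∈ sup (x : V → ℝ), r < (x : V → ℝ) i)
    (s := fun x r => Metric.ball x r) ?_ ?_
  · intro x
    have hpos : ∀ i ∈ sup (x : V → ℝ), 0 < (x : V → ℝ) i := fun i hi =>
      lt_of_le_of_ne ((sx x).1 i) (Ne.symm (mem_sup.mp hi))
    obtain ⟨r0, hr0, hr0'⟩ : ∃ r0 : ℝ, 0 < r0 ∧ ∀ i ∈ sup (x : V → ℝ), r0 < (x : V → ℝ) i := by
      obtain ⟨j, hj, hmin⟩ := Finset.exists_min_image (sup (x : V → ℝ)) (fun i => (x : V → ℝ) i)
        (sup_nonempty (sx x))
      refine ⟨(x : V → ℝ) j / 2, by linarith [hpos j hj], fun i hi => ?_⟩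
      linarith [hmin i hi, hpos j hj]
    refine Metric.nhds_basis_ball.to_hasBasis ?_ ?_
    · intro r hr
      refine ⟨min r r0, ⟨lt_min hr hr0, fun i hi => (min_le_right _ _).trans_lt (hr0' i hi)⟩, ?_⟩
      exact Metric.ball_subset_ball (min_le_left _ _)
    · intro r hr
      exact ⟨r, hr.1, Set.Subset.refl _⟩
  · intro x r hr
    have hup : ∀ y ∈ Metric.ball x r, sup (x : V → ℝ) ⊆ sup (y : V → ℝ) := by
      intro y hy i hi
      rw [mem_sup]
      intro h0
      rw [Metric.mem_ball, Subtype.dist_eq] at hy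
      have h1 : |(y : V → ℝ) i - (x : V → ℝ) i| ≤ dist (y : V → ℝ) (x : V → ℝ) := by
        rw [← Real.dist_eq]; exact dist_le_pi_dist _ _ i
      rw [h0, zero_sub, abs_neg, abs_of_nonneg ((sx x).1 i)] at h1
      linarith [hr.2 i hi]
    refine ⟨x, Metric.mem_ball_self hr.1, fun {y} hy => ?_⟩
    have hc : ∀ t : unitInterval, (1 - (t : ℝ)) • (x : V → ℝ) + (t : ℝ) • (y : V → ℝ) ∈ Cx K :=
      fun t => (star_up K x.2 y.2 (hup y hy) (sub_nonneg.mpr t.2.2) t.2.1 (by ring)).1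
    refine ⟨⟨⟨fun t => ⟨_, hc t⟩, by fun_prop⟩, by ext; simp, by ext; simp⟩, ?_⟩
    intro t
    rw [Metric.mem_ball, Subtype.dist_eq] at hy ⊢
    show dist ((1 - (t : ℝ)) • (x : V → ℝ) + (t : ℝ) • (y : V → ℝ)) (x : V → ℝ) < r
    have h2 : (1 - (t : ℝ)) • (x : V → ℝ) + (t : ℝ) • (y : V → ℝ) - (x : V → ℝ)
        = (t : ℝ) • ((y : V → ℝ) - (x : V → ℝ)) := by
      ext i; simp; ring
    rw [dist_eq_norm, h2, norm_smul, Real.norm_of_nonneg t.2.1, ← dist_eq_norm]
    calc (t : ℝ) * dist (y : V → ℝ) (x : V → ℝ) ≤ 1 * dist (y : V → ℝ) (x : V → ℝ) :=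
          mul_le_mul_of_nonneg_right t.2.2 dist_nonneg
      _ < r := by rw [one_mul]; exact hy

section Bundle

variable {G : Type} [Group G] [TopologicalSpace G] [DiscreteTopology G]
  (c : V → V → G) (hc : ∀ s ∈ K, ∀ i ∈ s, ∀ j ∈ s, ∀ k ∈ s, c i j * c j k = c i k)

/-- the principal bundle of the cocycle `c` -/
noncomputable def bun : FiberBundleCore V ↥(Cx K) G where
  baseSet v := {x | (x : V → ℝ) v ≠ 0}
  isOpen_baseSet v := by
    apply isOpen_ne_fun
    · exact (continuous_apply v).comp continuous_subtype_val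
    · exact continuous_const
  indexAt x := ch (sx x)
  mem_baseSet_at x := ch_ne (sx x)
  coordChange i j _ g := g * c i j
  coordChange_self i x hx g := by
    have h := hc _ (sK x) i (mem_sup.mpr hx) i (mem_sup.mpr hx) i (mem_sup.mpr hx)
    have h1 : c i i = 1 := by
      have := mul_left_cancel (a := c i i) (b := c i i) (c := 1) (by rw [h, mul_one])
      exact this
    rw [h1, mul_one]
  continuousOn_coordChange i j := by
    have : Continuous (fun g : G => g * c i j) := continuous_of_discreteTopology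
    exact (this.comp continuous_snd).continuousOn
  coordChange_comp i j k x hx g := by
    have h := hc _ (sK x) i (mem_sup.mpr hx.1.1) j (mem_sup.mpr hx.1.2) k (mem_sup.mpr hx.2)
    rw [mul_assoc, h]

lemma star_pre {v : V} (hv : ({v} : Finset V) ∈ K) :
    IsPreconnected {x : ↥(Cx K) | (x : V → ℝ) v ≠ 0} := by
  have : SimplyConnectedSpace ↥(ost K v) := scs_ost hv
  have h : {x : ↥(Cx K) | (x : V → ℝ) v ≠ 0} = Set.range (Set.inclusion (ost_sub K v)) := by
    ext x
    constructor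
    · intro hx; exact ⟨⟨x, x.2, hx⟩, rfl⟩
    · rintro ⟨y, rfl⟩; exact y.2.2
  rw [h]
  exact isPreconnected_range (continuous_inclusion _)

include hc in
theorem cocycle_trivial [SimplyConnectedSpace ↥(Cx K)] (hv : ∀ v : V, ({v} : Finset V) ∈ K) :
    ∃ g : V → G, ∀ i j : V, ({i, j} : Finset V) ∈ K → c i j = (g i)⁻¹ * g j := by
  set Z := bun c hc with hZ
  have cov : IsCoveringMap Z.proj :=
    IsCoveringMap.mk Z.proj (fun _ => G) (fun x => Z.localTriv (Z.indexAt x))
      (fun x => Z.mem_baseSet_at x)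
  obtain ⟨a₀⟩ : Nonempty ↥(Cx K) := inferInstance
  obtain ⟨F, ⟨_, hF⟩, _⟩ := cov.existsUnique_continuousMap_lifts (ContinuousMap.id _) a₀
    (⟨a₀, (1 : G)⟩ : Z.TotalSpace) rfl
  have hF1 : ∀ x, (F x).1 = x := fun x => congrFun hF x
  let h : V → ↥(Cx K) → G := fun v x => ((Z.localTriv v) (F x)).2
  have hcont : ∀ v, ContinuousOn (h v) {x : ↥(Cx K) | (x : V → ℝ) v ≠ 0} := by
    intro v
    have h1 : ContinuousOn (fun x => (Z.localTriv v) (F x)) {x : ↥(Cx K) | (x : V → ℝ) v ≠ 0} := by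
      apply (Z.localTriv v).continuousOn_toFun.comp F.continuous.continuousOn
      intro x hx
      rw [FiberBundleCore.mem_localTriv_source, hF1]
      exact hx
    exact continuous_snd.comp_continuousOn h1
  have hconst : ∀ v (x y : ↥(Cx K)), (x : V → ℝ) v ≠ 0 → (y : V → ℝ) v ≠ 0 → h v x = h v y :=
    fun v x y hx hy => (star_pre (hv v)).constant (hcont v) hx hy
  let f2 : ↥(Cx K) → G := fun x => (F x).2
  have hval : ∀ v (x : ↥(Cx K)), h v x = f2 x * c (ch (sx x)) v := by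
    intro v x
    have h2 : h v x = f2 x * c (Z.indexAt (F x).1) v := rfl
    have h3 : Z.indexAt x = ch (sx x) := rfl
    rw [h2, ← h3, hF1 x]
  refine ⟨fun v => h v (vt (hv v)), fun i j hij => ?_⟩
  -- the midpoint
  have hm0 : (fun a => (1 / 2 : ℝ) * (Pi.single i (1 : ℝ) : V → ℝ) a
      + (1 / 2 : ℝ) * (Pi.single j (1 : ℝ) : V → ℝ) a) ∈ Cx K
      ∧ sup (fun a => (1 / 2 : ℝ) * (Pi.single i (1 : ℝ) : V → ℝ) a
      + (1 / 2 : ℝ) * (Pi.single j (1 : ℝ) : V → ℝ) a) = {i, j} := by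
    have h3 := sup_comb (x := (Pi.single i (1 : ℝ) : V → ℝ)) (y := (Pi.single j (1 : ℝ) : V → ℝ))
      (fun a => (single_mem i).1 a) (fun a => (single_mem j).1 a) (a := 1 / 2) (b := 1 / 2)
      (by norm_num) (by norm_num)
    have h4 := convex_stdSimplex ℝ V (single_mem i) (single_mem j) (a := 1 / 2) (b := 1 / 2)
      (by norm_num) (by norm_num) (by norm_num)
    rw [sup_single, sup_single] at h3
    have h5 : ({i} : Finset V) ∪ {j} = {i, j} := by ext; simp
    rw [h5] at h3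
    exact ⟨⟨h4, by rw [← h3] at hij; exact hij⟩, h3⟩
  set m : ↥(Cx K) := ⟨_, hm0.1⟩ with hm
  have hsup : sup (m : V → ℝ) = {i, j} := hm0.2
  have hmi : (m : V → ℝ) i ≠ 0 := by rw [← mem_sup, hsup]; simp
  have hmj : (m : V → ℝ) j ≠ 0 := by rw [← mem_sup, hsup]; simp
  have hvi : ((vt (hv i) : ↥(Cx K)) : V → ℝ) i ≠ 0 := by
    show (Pi.single i (1 : ℝ) : V → ℝ) i ≠ 0
    simp
  have hvj : ((vt (hv j) : ↥(Cx K)) : V → ℝ) j ≠ 0 := by
    show (Pi.single j (1 : ℝ) : V → ℝ) j ≠ 0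
    simp
  show c i j = (h i (vt (hv i)))⁻¹ * h j (vt (hv j))
  rw [hconst i _ m hvi hmi, hconst j _ m hvj hmj, hval i m, hval j m, eq_inv_mul_iff_mul_eq,
    mul_assoc, hc _ (sK m) _ (mem_sup.mpr (ch_ne (sx m))) i (mem_sup.mpr hmi) j (mem_sup.mpr hmj)]

end Bundle

end Pool.Agent.SC.Geo
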