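import Pool.Agent.Lib.MP_d0323d_co.Defs
import Pool.Agent.Lib.MP_d0323d_co.Geo.Back2
import Pool.Agent.Lib.MP_d0323d_co.Geo.Forth

/-!
# The realisation of a two-dimensional complex with complete 1-skeleton is simply connected
iff the edge-path group is trivial
-/

set_option autoImplicit false
set_option linter.unusedSectionVars false

namespace Pool.Agent.SC.Geo

open Set Topology

/-- the faces of the complex: vertices, all edges, the triangles of `F` -/
def face (n : ℕ) (F : Set (Finset (Fin n))) : Set (Finset (Fin n)) :=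
  {s | s.Nonempty ∧ (s.card ≤ 2 ∨ s ∈ F)}

lemma face_down {n : ℕ} {F : Set (Finset (Fin n))} (hF : ∀ s ∈ F, s.card = 3) :
    Down (face n F) := by
  intro s hs t hts ht
  refine ⟨ht, ?_⟩
  rcases hs.2 with h | h
  · exact Or.inl ((Finset.card_le_card hts).trans h)
  · by_cases hts' : t = s
    · rw [hts']; exact Or.inr h
    · have := Finset.card_lt_card (Finset.ssubset_iff_subset_ne.mpr ⟨hts, hts'⟩)
      rw [hF s h] at this
      exact Or.inl (by omega)

lemma face_pair {n : ℕ} (F : Set (Finset (Fin n))) (i j : Fin n) :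
    ({i, j} : Finset (Fin n)) ∈ face n F :=
  ⟨⟨i, by simp⟩, Or.inl Finset.card_le_two⟩

section Group

variable {n : ℕ} {F : Finset (Finset (Fin n))}

lemma g_self (i : Fin n) : gg F i i = 1 :=
  PresentedGroup.one_of_mem (Or.inl ⟨i, rfl⟩)

lemma g_inv (i j : Fin n) : gg F i j * gg F j i = 1 :=
  PresentedGroup.one_of_mem (rels := frels n F) (Or.inr (Or.inl ⟨i, j, rfl⟩))

lemma g_zero (i j : Fin n) (hi : i.val = 0) : gg F i j = 1 :=
  PresentedGroup.one_of_mem (Or.inr (Or.inr (Or.inl ⟨i, j, hi, rfl⟩)))

lemma g_tri (i j k : Fin n) (h : ({i, j, k} : Finset (Fin n)) ∈ F) :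
    gg F i j * gg F j k = gg F i k := by
  have h1 : gg F i j * gg F j k * (gg F i k)⁻¹ = 1 :=
    PresentedGroup.one_of_mem (rels := frels n F) (Or.inr (Or.inr (Or.inr ⟨i, j, k, h, rfl⟩)))
  exact mul_inv_eq_one.mp h1

lemma g_face (hF : ∀ s ∈ F, s.card = 3) {s : Finset (Fin n)} (hs : s ∈ face n (F : Set _))
    {i j k : Fin n} (hi : i ∈ s) (hj : j ∈ s) (hk : k ∈ s) :
    gg F i j * gg F j k = gg F i k := by
  by_cases hij : i = j
  · subst hij; rw [g_self, one_mul]
  by_cases hjk : j = k
  · subst hjk; rw [g_self, mul_one]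
  by_cases hik : i = k
  · subst hik; rw [g_inv, g_self]
  have h3 : ({i, j, k} : Finset (Fin n)).card = 3 := Finset.card_eq_three.mpr
    ⟨i, j, k, hij, hik, hjk, rfl⟩
  have hsub : ({i, j, k} : Finset (Fin n)) ⊆ s := by
    intro a ha
    simp only [Finset.mem_insert, Finset.mem_singleton] at ha
    rcases ha with rfl | rfl | rfl <;> assumption
  have hle := Finset.card_le_card hsub
  rcases hs.2 with h | h
  · omega
  · have h' : s ∈ F := h
    have heq : ({i, j, k} : Finset (Fin n)) = s :=
      Finset.eq_of_subset_of_card_le hsub (by rw [hF s h', h3])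
    exact g_tri i j k (heq ▸ h')

end Group

/-- simply connected realisation gives a trivial edge-path group -/
theorem triv_of_scs {n : ℕ} {F : Finset (Finset (Fin n))} (hn : 0 < n)
    (hF : ∀ s ∈ F, s.card = 3) (h : SimplyConnectedSpace ↥(Cx (face n (F : Set _)))) :
    Triv n F := by
  let _ : TopologicalSpace (FG n F) := ⊥
  have : DiscreteTopology (FG n F) := ⟨rfl⟩
  obtain ⟨g, hg⟩ := cocycle_trivial (K := face n (F : Set (Finset (Fin n)))) (G := FG n F)
    (fun i j => gg F i j) (fun s hs i hi j hj k hk => g_face hF hs hi hj hk)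
    (fun v => by simpa using face_pair (F : Set (Finset (Fin n))) v v)
  have h0 : ∀ j, g j = g ⟨0, hn⟩ := by
    intro j
    have h1 := hg ⟨0, hn⟩ j (face_pair _ _ _)
    rw [g_zero _ _ rfl] at h1
    exact (inv_mul_eq_one.mp h1.symm).symm
  have h1 : ∀ i j, gg F i j = 1 := by
    intro i j
    have h2 := hg i j (face_pair _ _ _)
    rw [h2, h0 i, h0 j, inv_mul_cancel]
  intro x
  have h3 : MonoidHom.id (FG n F) = 1 := by
    apply PresentedGroup.ext
    rintro ⟨i, j⟩
    exact h1 i j
  exact DFunLike.congr_fun h3 x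

/-- trivial edge-path group gives a simply connected realisation -/
theorem scs_of_triv {n : ℕ} {F : Finset (Finset (Fin n))} (hn : 0 < n)
    (hF : ∀ s ∈ F, s.card = 3) (h : Triv n F) :
    SimplyConnectedSpace ↥(Cx (face n (F : Set _))) := by
  have : Nonempty (Fin n) := ⟨⟨0, hn⟩⟩
  have hK := face_down (n := n) (F := (F : Set (Finset (Fin n)))) hF
  have hE := face_pair (n := n) (F : Set (Finset (Fin n)))
  set o : Fin n := ⟨0, hn⟩ with ho
  have hself : ∀ i, edg hK hE i i = Path.Homotopic.Quotient.refl _ := fun i => by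
    unfold edg; exact cls_self hK _ _
  have hback : ∀ i j, (edg hK hE i j).trans (edg hK hE j i) = Path.Homotopic.Quotient.refl _ :=
    fun i j => by
      rw [edg_tri hK hE (hE i j) (by simp) (by simp) (by simp), hself]
  let L : Fin n → Fin n → Path.Homotopic.Quotient (vt (vtx hK hE o)) (vt (vtx hK hE o)) :=
    fun j i => ((edg hK hE o j).trans (edg hK hE j i)).trans (edg hK hE i o)
  let f : Fin n × Fin n → FundamentalGroup ↥(Cx (face n (F : Set (Finset (Fin n)))))
      (vt (vtx hK hE o)) := fun p => L p.2 p.1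
  have hLL : ∀ k j i, (L k j).trans (L j i)
      = (((edg hK hE o k).trans (edg hK hE k j)).trans (edg hK hE j i)).trans (edg hK hE i o) := by
    intro k j i
    simp only [L, Path.Homotopic.Quotient.trans_assoc]
    rw [← Path.Homotopic.Quotient.trans_assoc (edg hK hE j o), hback,
      Path.Homotopic.Quotient.refl_trans]
  have hrel : ∀ r ∈ frels n F, FreeGroup.lift f r = 1 := by
    rintro r (⟨i, rfl⟩ | ⟨i, j, rfl⟩ | ⟨i, j, hi, rfl⟩ | ⟨i, j, k, hijk, rfl⟩)
    · rw [FreeGroup.lift_apply_of]
      show L i i = Path.Homotopic.Quotient.refl _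
      simp only [L]
      rw [hself, Path.Homotopic.Quotient.trans_refl, hback]
    · rw [map_mul, FreeGroup.lift_apply_of, FreeGroup.lift_apply_of]
      show (L i j).trans (L j i) = Path.Homotopic.Quotient.refl _
      rw [hLL, Path.Homotopic.Quotient.trans_assoc (edg hK hE o i), hback,
        Path.Homotopic.Quotient.trans_refl, hback]
    · rw [FreeGroup.lift_apply_of]
      have hio : i = o := Fin.ext hi
      rw [hio]
      show L j o = Path.Homotopic.Quotient.refl _
      simp only [L]
      rw [hback, Path.Homotopic.Quotient.refl_trans, hself]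
    · rw [map_mul, map_mul, map_inv, FreeGroup.lift_apply_of, FreeGroup.lift_apply_of,
        FreeGroup.lift_apply_of, mul_inv_eq_one]
      show (L k j).trans (L j i) = L k i
      have hmem : ({i, j, k} : Finset (Fin n)) ∈ face n (F : Set (Finset (Fin n))) :=
        ⟨⟨i, by simp⟩, Or.inr hijk⟩
      rw [hLL, Path.Homotopic.Quotient.trans_assoc (edg hK hE o k),
        edg_tri hK hE hmem (by simp) (by simp) (by simp)]
  have hL : ∀ j i, L j i = Path.Homotopic.Quotient.refl _ := by
    intro j i
    have h1 : PresentedGroup.toGroup hrel (PresentedGroup.of (i, j)) = f (i, j) :=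
      PresentedGroup.toGroup.of hrel
    have h2 : (PresentedGroup.of (i, j) : PresentedGroup (frels n F)) = 1 := h _
    rw [h2, map_one] at h1
    exact h1.symm
  have hoe : ∀ j i, (edg hK hE o j).trans (edg hK hE j i) = edg hK hE o i := by
    intro j i
    have h1 := hL j i
    simp only [L] at h1
    calc (edg hK hE o j).trans (edg hK hE j i)
        = (((edg hK hE o j).trans (edg hK hE j i)).trans (edg hK hE i o)).trans
            (edg hK hE o i) := by
          rw [Path.Homotopic.Quotient.trans_assoc _ (edg hK hE i o), hback,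
            Path.Homotopic.Quotient.trans_refl]
      _ = _ := by rw [h1, Path.Homotopic.Quotient.refl_trans]
  have hik : ∀ i k, edg hK hE i k = (edg hK hE i o).trans (edg hK hE o k) := by
    intro i k
    rw [← hoe i k, ← Path.Homotopic.Quotient.trans_assoc, hback,
      Path.Homotopic.Quotient.refl_trans]
  exact scs_of_tri hK hE (fun i j k => by
    rw [hik i j, Path.Homotopic.Quotient.trans_assoc, hoe, hik i k])

theorem triv_iff {n : ℕ} {F : Finset (Finset (Fin n))} (hn : 0 < n)
    (hF : ∀ s ∈ F, s.card = 3) :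
    SimplyConnectedSpace ↥(Cx (face n (F : Set _))) ↔ Triv n F :=
  ⟨triv_of_scs hn hF, scs_of_triv hn hF⟩

end Pool.Agent.SC.Geo
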