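import Pool.Agent.Lib.MP_d0323d_co.Growth

/-!
# The growth constant is the limit of `(number of spheres / v!)^(1/v)`
-/

set_option autoImplicit false

namespace Pool.Agent.SC.Geo

open Finset Filter Topology

/-- `d_i / i!` -/
noncomputable def tau (i : ℕ) : ℝ := (dsc i : ℝ) / (i.factorial : ℝ)

lemma tau_nonneg (i : ℕ) : 0 ≤ tau i := by unfold tau; positivity

lemma tau_succ (i : ℕ) (hi : 1 ≤ i) : tau i ≤ tau (i + 1) := by
  have h := dsc_succ i hi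
  unfold tau
  have h0 : (0 : ℝ) < (i.factorial : ℝ) := by exact_mod_cast Nat.factorial_pos i
  have h1 : (0 : ℝ) < ((i + 1).factorial : ℝ) := by exact_mod_cast Nat.factorial_pos (i + 1)
  rw [div_le_div_iff₀ h0 h1, Nat.factorial_succ]
  have h2 : ((2 * i + 1 : ℕ) : ℝ) * (dsc i : ℝ) ≤ (dsc (i + 1) : ℝ) := by exact_mod_cast h
  have h3 : (dsc i : ℝ) * ((i + 1 : ℕ) : ℝ) ≤ (dsc (i + 1) : ℝ) := by
    refine le_trans ?_ h2
    rw [mul_comm]
    apply mul_le_mul_of_nonneg_right _ (Nat.cast_nonneg _)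
    push_cast
    linarith [(Nat.cast_nonneg i : (0 : ℝ) ≤ i)]
  push_cast at h3 ⊢
  nlinarith

lemma tau_mono {i j : ℕ} (hi : 1 ≤ i) (hij : i ≤ j) : tau i ≤ tau j := by
  induction j, hij using Nat.le_induction with
  | base => exact le_rfl
  | succ j hj ih => exact ih.trans (tau_succ j (hi.trans hj))

lemma tau_mul {a b : ℕ} (ha : 1 ≤ a) (hb : 1 ≤ b) :
    tau a * tau b ≤ tau (a + b) * ((a : ℝ) + b + 3) ^ 3 := by
  have h1 := dsc_mul a b ha hb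
  have h2 := Nat.add_choose_mul_factorial_mul_factorial a b
  rw [← Nat.choose_symm_add] at h2
  have ha0 : (0 : ℝ) < (a.factorial : ℝ) := by exact_mod_cast Nat.factorial_pos a
  have hb0 : (0 : ℝ) < (b.factorial : ℝ) := by exact_mod_cast Nat.factorial_pos b
  have hab0 : (0 : ℝ) < ((a + b).factorial : ℝ) := by exact_mod_cast Nat.factorial_pos (a + b)
  have h1' : ((a + b).choose a : ℝ) * ((dsc a : ℝ) * (dsc b : ℝ))
      ≤ (dsc (a + b) : ℝ) * ((a : ℝ) + b + 3) ^ 3 := by exact_mod_cast h1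
  have h2' : ((a + b).choose a : ℝ) * (a.factorial : ℝ) * (b.factorial : ℝ)
      = ((a + b).factorial : ℝ) := by exact_mod_cast h2
  have e1 : tau a * tau b * ((a + b).factorial : ℝ)
      = ((a + b).choose a : ℝ) * ((dsc a : ℝ) * (dsc b : ℝ)) := by
    unfold tau
    rw [← h2']
    field_simp
  have e2 : tau (a + b) * ((a : ℝ) + b + 3) ^ 3 * ((a + b).factorial : ℝ)
      = (dsc (a + b) : ℝ) * ((a : ℝ) + b + 3) ^ 3 := by
    unfold tau
    field_simp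
  have : tau a * tau b * ((a + b).factorial : ℝ)
      ≤ tau (a + b) * ((a : ℝ) + b + 3) ^ 3 * ((a + b).factorial : ℝ) := by
    rw [e1, e2]; exact h1'
  exact le_of_mul_le_mul_right this hab0

/-- balanced superadditivity -/
lemma tau_step {a b : ℕ} (ha : 3 ≤ a) (hab : a ≤ b) (hb : b ≤ 2 * a) {Γ : ℝ} (hΓ : 0 < Γ)
    (h1 : 1728 * (a : ℝ) ^ 3 * Γ ^ a ≤ tau a) (h2 : 1728 * (b : ℝ) ^ 3 * Γ ^ b ≤ tau b) :
    1728 * ((a + b : ℕ) : ℝ) ^ 3 * Γ ^ (a + b) ≤ tau (a + b) := by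
  have hm := tau_mul (a := a) (b := b) (by omega) (by omega)
  have ha3 : (3 : ℝ) ≤ (a : ℝ) := by exact_mod_cast ha
  have hab' : (a : ℝ) ≤ (b : ℝ) := by exact_mod_cast hab
  have hb' : (b : ℝ) ≤ 2 * (a : ℝ) := by exact_mod_cast hb
  have hb0 : (0 : ℝ) < (b : ℝ) := by linarith
  have ha0 : (0 : ℝ) < (a : ℝ) := by linarith
  have hkey : ((a : ℝ) + b) * ((a : ℝ) + b + 3) ≤ 12 * ((a : ℝ) * b) := by nlinarith
  have hkey3 : (((a : ℝ) + b) * ((a : ℝ) + b + 3)) ^ 3 ≤ (12 * ((a : ℝ) * b)) ^ 3 :=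
    pow_le_pow_left₀ (by positivity) hkey 3
  have hpos : (0 : ℝ) < ((a : ℝ) + b + 3) ^ 3 := by positivity
  refine le_of_mul_le_mul_right ?_ hpos
  refine le_trans ?_ hm
  calc 1728 * ((a + b : ℕ) : ℝ) ^ 3 * Γ ^ (a + b) * ((a : ℝ) + b + 3) ^ 3
      = 1728 * Γ ^ (a + b) * (((a : ℝ) + b) * ((a : ℝ) + b + 3)) ^ 3 := by push_cast; ring
    _ ≤ 1728 * Γ ^ (a + b) * (12 * ((a : ℝ) * b)) ^ 3 :=
        mul_le_mul_of_nonneg_left hkey3 (by positivity)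
    _ = (1728 * (a : ℝ) ^ 3 * Γ ^ a) * (1728 * (b : ℝ) ^ 3 * Γ ^ b) := by
        rw [pow_add]; ring
    _ ≤ tau a * tau b := mul_le_mul h1 h2 (by positivity) (tau_nonneg a)

lemma tau_multiples {b : ℕ} (hb : 3 ≤ b) {Γ : ℝ} (hΓ : 0 < Γ)
    (h : 1728 * (b : ℝ) ^ 3 * Γ ^ b ≤ tau b) (k : ℕ) (hk : 1 ≤ k) :
    1728 * ((k * b : ℕ) : ℝ) ^ 3 * Γ ^ (k * b) ≤ tau (k * b) := by
  induction k using Nat.strong_induction_on with
  | _ k ih =>
    rcases Nat.lt_or_ge k 2 with hk2 | hk2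
    · have : k = 1 := by omega
      subst this
      simpa using h
    · have h1 := ih (k / 2) (by omega) (by omega)
      have h2 := ih (k - k / 2) (by omega) (by omega)
      have hs := tau_step (a := k / 2 * b) (b := (k - k / 2) * b)
        (le_trans hb (Nat.le_mul_of_pos_left b (by omega)))
        (Nat.mul_le_mul_right b (by omega))
        (by rw [← mul_assoc]; exact Nat.mul_le_mul_right b (by omega)) hΓ h1 h2
      have hkk : k / 2 * b + (k - k / 2) * b = k * b := by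
        rw [← Nat.add_mul]; congr 1; omega
      rw [hkk] at hs
      exact hs

lemma tau_lower {γ : ℝ}
    (hγ2 : ∀ Γ : ℝ, 0 < Γ → Γ < γ → ∃ i0 : ℕ, 1 ≤ i0 ∧ ∀ j : ℕ,
      Γ ^ (2 ^ j * i0) ≤ (dsc (2 ^ j * i0) : ℝ) / ((2 ^ j * i0).factorial : ℝ))
    {Γ : ℝ} (hΓ1 : 0 < Γ) (hΓ : Γ < γ) :
    ∃ c : ℝ, 0 < c ∧ ∃ b : ℕ, 1 ≤ b ∧ ∀ m : ℕ, b ≤ m → c * Γ ^ m ≤ tau m := by
  obtain ⟨Γ2, hΓ2, hΓ2'⟩ := exists_between hΓ
  have hΓ20 : 0 < Γ2 := hΓ1.trans hΓ2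
  obtain ⟨i0, hi0, hi⟩ := hγ2 Γ2 hΓ20 hΓ2'
  -- choose `j`
  have hlim : Tendsto (fun n : ℕ => 1728 * ((n : ℝ) ^ 3 * (Γ / Γ2) ^ n)) atTop (𝓝 (1728 * 0)) :=
    (tendsto_pow_const_mul_const_pow_of_lt_one 3 (by positivity)
      ((div_lt_one hΓ20).mpr hΓ2)).const_mul _
  rw [mul_zero] at hlim
  obtain ⟨N, hN⟩ := eventually_atTop.mp (hlim.eventually (gt_mem_nhds (show (0 : ℝ) < 1 by norm_num)))
  set b : ℕ := 2 ^ (N + 2) * i0 with hbdef
  have h2N : N + 2 < 2 ^ (N + 2) := Nat.lt_two_pow_self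
  have hbN : N + 3 ≤ b := by
    rw [hbdef]
    calc N + 3 ≤ 2 ^ (N + 2) := h2N
      _ ≤ 2 ^ (N + 2) * i0 := Nat.le_mul_of_pos_right _ hi0
  have hb := hN b (by omega)
  have hbase : 1728 * (b : ℝ) ^ 3 * Γ ^ b ≤ tau b := by
    refine le_trans ?_ (hi (N + 2))
    rw [← hbdef]
    rw [div_pow] at hb
    have hp : (0 : ℝ) < Γ2 ^ b := by positivity
    have : 1728 * (b : ℝ) ^ 3 * Γ ^ b / Γ2 ^ b < 1 := by
      calc 1728 * (b : ℝ) ^ 3 * Γ ^ b / Γ2 ^ b = 1728 * ((b : ℝ) ^ 3 * (Γ ^ b / Γ2 ^ b)) := by ring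
        _ < 1 := hb
    exact ((div_lt_one hp).mp this).le
  set M := max 1 Γ with hM
  have hM1 : 1 ≤ M := le_max_left _ _
  refine ⟨(M ^ b)⁻¹, by positivity, b, by omega, fun m hm => ?_⟩
  have hk : 1 ≤ m / b := (Nat.one_le_div_iff (by omega)).mpr hm
  have h1 := tau_multiples (by omega) hΓ1 hbase (m / b) hk
  have h2 : Γ ^ (m / b * b) ≤ tau (m / b * b) := by
    refine le_trans ?_ h1
    have h3 : (1 : ℝ) ≤ 1728 * ((m / b * b : ℕ) : ℝ) ^ 3 := by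
      have h4 : (1 : ℝ) ≤ ((m / b * b : ℕ) : ℝ) := by
        have : 1 ≤ m / b * b := Nat.mul_pos hk (by omega)
        exact_mod_cast this
      have h5 : (1 : ℝ) ≤ ((m / b * b : ℕ) : ℝ) ^ 3 := one_le_pow₀ h4
      linarith
    nlinarith [pow_pos hΓ1 (m / b * b)]
  have h3 : tau (m / b * b) ≤ tau m :=
    tau_mono (Nat.mul_pos hk (by omega)) (Nat.div_mul_le_self m b)
  have h4 : Γ ^ m ≤ M ^ b * Γ ^ (m / b * b) := by
    have h5 : m = m % b + m / b * b := by rw [mul_comm]; exact (Nat.mod_add_div m b).symm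
    conv_lhs => rw [h5, pow_add]
    apply mul_le_mul_of_nonneg_right _ (by positivity)
    calc Γ ^ (m % b) ≤ M ^ (m % b) := pow_le_pow_left₀ hΓ1.le (le_max_right _ _) _
      _ ≤ M ^ b := pow_le_pow_right₀ hM1 (Nat.mod_lt m (by omega)).le
  calc (M ^ b)⁻¹ * Γ ^ m ≤ (M ^ b)⁻¹ * (M ^ b * Γ ^ (m / b * b)) :=
        mul_le_mul_of_nonneg_left h4 (by positivity)
    _ = Γ ^ (m / b * b) := by
        rw [← mul_assoc, inv_mul_cancel₀ (by positivity), one_mul]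
    _ ≤ tau m := h2.trans h3

theorem lim_sph {γ : ℝ} (hγ : 1 ≤ γ)
    (hγ1 : ∀ Γ : ℝ, γ < Γ → ∃ A : ℝ, 0 < A ∧ ∀ v : ℕ, (sph v : ℝ) ≤ A * (v.factorial : ℝ) * Γ ^ v)
    (hγ2 : ∀ Γ : ℝ, 0 < Γ → Γ < γ → ∃ i0 : ℕ, 1 ≤ i0 ∧ ∀ j : ℕ,
      Γ ^ (2 ^ j * i0) ≤ (dsc (2 ^ j * i0) : ℝ) / ((2 ^ j * i0).factorial : ℝ)) :
    Tendsto (fun v : ℕ => ((sph v : ℝ) / (v.factorial : ℝ)) ^ (1 / (v : ℝ))) atTop (𝓝 γ) := by
  have hroot : ∀ (v : ℕ), 1 ≤ v → ∀ a : ℝ, 0 ≤ a → (a ^ v) ^ (1 / (v : ℝ)) = a := by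
    intro v hv a ha
    rw [one_div]
    exact Real.pow_rpow_inv_natCast ha (by omega)
  rw [tendsto_order]
  constructor
  · intro a ha
    -- lower bound
    obtain ⟨Γ', h1, h2⟩ := exists_between (max_lt ha (lt_of_lt_of_le zero_lt_one hγ))
    obtain ⟨Γ, h3, h4⟩ := exists_between h2
    have hΓ'0 : 0 < Γ' := lt_of_le_of_lt (le_max_right _ _) h1
    have haΓ' : a < Γ' := lt_of_le_of_lt (le_max_left _ _) h1
    have hΓ0 : 0 < Γ := hΓ'0.trans h3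
    obtain ⟨c, hc, b, hb, hlow⟩ := tau_lower hγ2 hΓ0 h4
    have hlim : Tendsto (fun n : ℕ => (12 * Γ' ^ 3 / c) * (2 * ((n : ℝ) ^ 1 * (Γ' / Γ) ^ n))) atTop
        (𝓝 ((12 * Γ' ^ 3 / c) * (2 * 0))) :=
      ((tendsto_pow_const_mul_const_pow_of_lt_one 1 (by positivity)
        ((div_lt_one hΓ0).mpr h3)).const_mul _).const_mul _
    rw [mul_zero, mul_zero] at hlim
    have hev := (hlim.eventually (gt_mem_nhds (show (0 : ℝ) < 1 by norm_num))).and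
      (eventually_ge_atTop b)
    obtain ⟨N, hN⟩ := eventually_atTop.mp hev
    filter_upwards [eventually_ge_atTop (N + 4)] with v hv
    obtain ⟨i, rfl⟩ : ∃ i, v = i + 3 := ⟨v - 3, by omega⟩
    obtain ⟨h5, h6⟩ := hN i (by omega)
    have hi1 : 1 ≤ i := by omega
    have h7 := hlow i h6
    have h8 : tau i = 6 * (2 * (i : ℝ) + 2) * ((sph (i + 3) : ℝ) / ((i + 3).factorial : ℝ)) :=
      tau_sph i hi1
    have hi1' : (1 : ℝ) ≤ (i : ℝ) := by exact_mod_cast hi1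
    have h9 : Γ' ^ (i + 3) ≤ (sph (i + 3) : ℝ) / ((i + 3).factorial : ℝ) := by
      rw [h8] at h7
      have hp : (0 : ℝ) < 6 * (2 * (i : ℝ) + 2) := by positivity
      refine le_of_mul_le_mul_left ?_ hp
      refine le_trans ?_ h7
      have hΓi : (0 : ℝ) < Γ ^ i := by positivity
      rw [pow_one, div_pow] at h5
      have h10 : (12 * Γ' ^ 3) * (2 * (i : ℝ)) * Γ' ^ i ≤ c * Γ ^ i := by
        have h11 : 12 * Γ' ^ 3 / c * (2 * ((i : ℝ) * (Γ' ^ i / Γ ^ i)))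
            = ((12 * Γ' ^ 3) * (2 * (i : ℝ)) * Γ' ^ i) / (c * Γ ^ i) := by
          field_simp
        rw [h11] at h5
        exact ((div_lt_one (by positivity)).mp h5).le
      have hΓ'i : (0 : ℝ) < Γ' ^ i := by positivity
      have hΓ'3 : (0 : ℝ) < Γ' ^ 3 := by positivity
      calc 6 * (2 * (i : ℝ) + 2) * Γ' ^ (i + 3) = 12 * ((i : ℝ) + 1) * (Γ' ^ 3 * Γ' ^ i) := by
            rw [pow_add]; ring
        _ ≤ 12 * (2 * (i : ℝ)) * (Γ' ^ 3 * Γ' ^ i) := by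
            apply mul_le_mul_of_nonneg_right _ (by positivity)
            linarith
        _ = (12 * Γ' ^ 3) * (2 * (i : ℝ)) * Γ' ^ i := by ring
        _ ≤ c * Γ ^ i := h10
    calc a < Γ' := haΓ'
      _ = (Γ' ^ (i + 3)) ^ (1 / ((i + 3 : ℕ) : ℝ)) := (hroot (i + 3) (by omega) Γ' hΓ'0.le).symm
      _ ≤ _ := Real.rpow_le_rpow (by positivity) h9 (by positivity)
  · intro a ha
    obtain ⟨Γ', h1, h2⟩ := exists_between ha
    obtain ⟨Γ, h3, h4⟩ := exists_between h1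
    have hΓ0 : 0 < Γ := by linarith
    have hΓ'0 : 0 < Γ' := by linarith
    obtain ⟨A, hA, hup⟩ := hγ1 Γ h3
    have hlim : Tendsto (fun n : ℕ => A * (Γ / Γ') ^ n) atTop (𝓝 (A * 0)) :=
      (tendsto_pow_atTop_nhds_zero_of_lt_one (by positivity)
        ((div_lt_one hΓ'0).mpr h4)).const_mul _
    rw [mul_zero] at hlim
    filter_upwards [hlim.eventually (gt_mem_nhds (show (0 : ℝ) < 1 by norm_num)),
      eventually_ge_atTop 1] with v h5 hv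
    have hv0 : (0 : ℝ) < (v.factorial : ℝ) := by exact_mod_cast Nat.factorial_pos v
    have h6 : (sph v : ℝ) / (v.factorial : ℝ) ≤ Γ' ^ v := by
      rw [div_le_iff₀ hv0]
      refine (hup v).trans ?_
      rw [div_pow] at h5
      have h7 : A * Γ ^ v ≤ Γ' ^ v := by
        have h8 : A * (Γ ^ v / Γ' ^ v) = (A * Γ ^ v) / Γ' ^ v := by ring
        rw [h8] at h5
        exact ((div_lt_one (by positivity)).mp h5).le
      nlinarith
    calc ((sph v : ℝ) / (v.factorial : ℝ)) ^ (1 / (v : ℝ))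
        ≤ (Γ' ^ v) ^ (1 / (v : ℝ)) := Real.rpow_le_rpow (by positivity) h6 (by positivity)
      _ = Γ' := hroot v hv Γ' hΓ'0.le
      _ < a := h2

end Pool.Agent.SC.Geo
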