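import Pool.Agent.Lib.MP_d0323d_co.Geo.Equiv
import Pool.Agent.Lib.MP_d0323d_co.Prob

/-!
# The measure `setBernoulli` versus the finite sums of the library; the literal realisation
-/

set_option autoImplicit false
set_option linter.unusedSectionVars false

namespace Pool.Agent.SC.Geo

open Set Topology MeasureTheory ProbabilityTheory

section Hull

variable {V : Type} [Fintype V] [DecidableEq V]

lemma hull_eq (s : Finset V) :
    convexHull ℝ ((fun i : V => (Pi.single i (1 : ℝ) : V → ℝ)) '' (s : Set V)) = clo s := by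
  apply Set.Subset.antisymm
  · apply convexHull_min _ (convex_clo s)
    rintro _ ⟨i, hi, rfl⟩
    exact ⟨single_mem i, by rw [sup_single]; simpa using hi⟩
  · intro x hx
    have hsum : ∑ i ∈ s, x i • (Pi.single i (1 : ℝ) : V → ℝ) = x := by
      ext j
      rw [Finset.sum_apply]
      by_cases hj : j ∈ s
      · rw [Finset.sum_eq_single j]
        · simp
        · intro i _ hij
          simp [Ne.symm hij]
        · intro h; exact absurd hj h
      · rw [Finset.sum_eq_zero]
        · by_contra hcon
          exact hj (hx.2 (mem_sup.mpr (Ne.symm hcon)))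
        · intro i hi
          have : j ≠ i := fun h => hj (h ▸ hi)
          simp [this]
    rw [← hsum]
    apply (convex_convexHull ℝ _).sum_mem (fun i _ => hx.1.1 i)
    · have h1 : ∑ i ∈ s, x i = ∑ i, x i := by
        apply Finset.sum_subset (Finset.subset_univ _)
        intro i _ hi
        by_contra hcon
        exact hi (hx.2 (mem_sup.mpr hcon))
      rw [h1, hx.1.2]
    · intro i hi
      exact subset_convexHull ℝ _ ⟨i, hi, rfl⟩

end Hull

lemma union_hull_eq {n : ℕ} {F : Set (Finset (Fin n))} (hF : ∀ s ∈ F, s.card = 3) :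
    (⋃ s ∈ {s : Finset (Fin n) | s.card ≤ 2 ∨ s ∈ F},
      convexHull ℝ ((fun i : Fin n => (Pi.single i (1 : ℝ) : Fin n → ℝ)) '' (s : Set (Fin n))))
      = Cx (face n F) := by
  ext x
  rw [Set.mem_iUnion₂]
  constructor
  · rintro ⟨s, hs, hx⟩
    rw [hull_eq] at hx
    have hne := sup_nonempty hx.1
    refine ⟨hx.1, face_down hF s ⟨hne.mono hx.2, hs⟩ _ hx.2 hne⟩
  · intro hx
    refine ⟨sup x, hx.2.2, ?_⟩
    rw [hull_eq]
    exact ⟨hx.1, Finset.Subset.refl _⟩

lemma setBer_real {α : Type} [Fintype α] [DecidableEq α] (U : Finset α) (p : unitInterval)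
    (S : Set (Set α)) :
    (setBernoulli (U : Set α) p).real S = Pr U (p : ℝ) (fun F => (F : Set α) ∈ S) := by
  classical
  have h0 : (setBernoulli (U : Set α) p) S
      = (setBernoulli (U : Set α) p) {s ∈ S | s ⊆ (U : Set α)} :=
    setBernoulli_apply_eq_apply_subsets _ _ _
  rw [measureReal_def, h0, ← measureReal_def]
  have h1 : {s ∈ S | s ⊆ (U : Set α)}
      = ⋃ F ∈ U.powerset.filter (fun F : Finset α => (F : Set α) ∈ S), {((F : Finset α) : Set α)} := by
    ext s
    simp only [Set.mem_iUnion, Set.mem_singleton_iff, Finset.mem_filter, Finset.mem_powerset,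
      exists_prop]
    constructor
    · rintro ⟨hs, hsU⟩
      refine ⟨U.filter (· ∈ s), ⟨Finset.filter_subset _ _, ?_⟩, ?_⟩
      · convert hs
        ext a; simp; exact fun h => hsU h
      · ext a; simp; exact fun h => hsU h
    · rintro ⟨F, ⟨hFU, hF⟩, rfl⟩
      exact ⟨hF, by exact_mod_cast hFU⟩
  rw [h1, measureReal_biUnion_finset]
  · unfold Pr
    rw [Finset.sum_filter]
    apply Finset.sum_congr rfl
    intro F hF
    rw [Finset.mem_powerset] at hF
    split_ifs with h
    · rw [setBernoulli_real_singleton p (by exact_mod_cast hF) U.finite_toSet]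
      unfold wP
      rw [Set.ncard_coe_finset, ← Finset.coe_sdiff, Set.ncard_coe_finset,
        Finset.card_sdiff_of_subset hF]
    · rfl
  · intro F _ G _ hFG
    simp only [Function.onFun, Set.disjoint_singleton]
    intro h
    exact hFG (by exact_mod_cast h)
  · intro F _
    exact MeasurableSet.singleton _

end Pool.Agent.SC.Geo
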