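import Mathlib

/-!
# The geometric realisation of a finite simplicial complex

`Cx K` is the geometric realisation of the simplicial complex `K` on a finite vertex set `V`,
as a subspace of `V → ℝ`.  This file: segments, closed simplices, open stars, local path
connectedness.
-/

set_option autoImplicit false
set_option linter.unusedSectionVars false

namespace Pool.Agent.SC.Geo

open Set Topology Path.Homotopic

variable {V : Type} [Fintype V] [DecidableEq V]

/-- support of a point -/
noncomputable def sup (x : V → ℝ) : Finset V := Finset.univ.filter (fun i => x i ≠ 0)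

lemma mem_sup {x : V → ℝ} {i : V} : i ∈ sup x ↔ x i ≠ 0 := by simp [sup]

/-- the geometric realisation of `K` -/
def Cx (K : Set (Finset V)) : Set (V → ℝ) := {x | x ∈ stdSimplex ℝ V ∧ sup x ∈ K}

lemma sx {K : Set (Finset V)} (x : ↥(Cx K)) : (x : V → ℝ) ∈ stdSimplex ℝ V := x.2.1

lemma sK {K : Set (Finset V)} (x : ↥(Cx K)) : sup (x : V → ℝ) ∈ K := x.2.2

/-- the closed simplex on `s` -/
def clo (s : Finset V) : Set (V → ℝ) := {x | x ∈ stdSimplex ℝ V ∧ sup x ⊆ s}

/-- the open star of `v` -/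
def ost (K : Set (Finset V)) (v : V) : Set (V → ℝ) := {x | x ∈ Cx K ∧ x v ≠ 0}

/-- down-closed -/
def Down (K : Set (Finset V)) : Prop := ∀ s ∈ K, ∀ t : Finset V, t ⊆ s → t.Nonempty → t ∈ K

lemma sup_nonempty {x : V → ℝ} (hx : x ∈ stdSimplex ℝ V) : (sup x).Nonempty := by
  by_contra h
  rw [Finset.not_nonempty_iff_eq_empty] at h
  have h0 : ∀ i, x i = 0 := by
    intro i
    by_contra hi
    have : i ∈ sup x := mem_sup.mpr hi
    rw [h] at this
    simp at this
  have := hx.2
  simp [h0] at this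

/-- a vertex of the support -/
noncomputable def ch {x : V → ℝ} (hx : x ∈ stdSimplex ℝ V) : V := (sup_nonempty hx).choose

lemma ch_ne {x : V → ℝ} (hx : x ∈ stdSimplex ℝ V) : x (ch hx) ≠ 0 :=
  mem_sup.mp (sup_nonempty hx).choose_spec

lemma sup_single (i : V) : sup (Pi.single i (1 : ℝ)) = {i} := by
  ext j
  rw [mem_sup, Finset.mem_singleton]
  by_cases h : j = i
  · subst h; simp
  · simp [h]

lemma single_mem (i : V) : (Pi.single i (1 : ℝ) : V → ℝ) ∈ stdSimplex ℝ V :=
  single_mem_stdSimplex ℝ i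

/-- support of a proper convex combination of nonnegative vectors -/
lemma sup_comb {x y : V → ℝ} (hx : ∀ i, 0 ≤ x i) (hy : ∀ i, 0 ≤ y i) {a b : ℝ} (ha : 0 < a)
    (hb : 0 < b) : sup (a • x + b • y) = sup x ∪ sup y := by
  ext i
  rw [Finset.mem_union, mem_sup, mem_sup, mem_sup]
  simp only [Pi.add_apply, Pi.smul_apply, smul_eq_mul]
  constructor
  · intro h
    by_contra hcon
    push Not at hcon
    apply h
    rw [hcon.1, hcon.2]; ring
  · intro h
    have h1 := mul_nonneg ha.le (hx i)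
    have h2 := mul_nonneg hb.le (hy i)
    rcases h with h | h
    · have h3 : 0 < a * x i := mul_pos ha (lt_of_le_of_ne (hx i) (Ne.symm h))
      linarith
    · have h3 : 0 < b * y i := mul_pos hb (lt_of_le_of_ne (hy i) (Ne.symm h))
      linarith

lemma clo_sub {K : Set (Finset V)} (hK : Down K) {s : Finset V} (hs : s ∈ K) : clo s ⊆ Cx K :=
  fun _ hx => ⟨hx.1, hK s hs _ hx.2 (sup_nonempty hx.1)⟩

lemma sup_comb_sub {x y : V → ℝ} (a b : ℝ) : sup (a • x + b • y) ⊆ sup x ∪ sup y := by
  intro i hi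
  rw [mem_sup] at hi
  rw [Finset.mem_union, mem_sup, mem_sup]
  by_contra hcon
  push Not at hcon
  apply hi
  simp [hcon.1, hcon.2]

lemma convex_clo (s : Finset V) : Convex ℝ (clo s) := by
  intro x hx y hy a b ha hb hab
  refine ⟨convex_stdSimplex ℝ V hx.1 hy.1 ha hb hab, ?_⟩
  exact (sup_comb_sub a b).trans (Finset.union_subset hx.2 hy.2)

lemma ost_sub (K : Set (Finset V)) (v : V) : ost K v ⊆ Cx K := fun _ hx => hx.1

/-- `{y ∈ Cx K | sup x ⊆ sup y}` is star-convex at `x` -/
lemma star_up (K : Set (Finset V)) {x : V → ℝ} (hx : x ∈ Cx K) {y : V → ℝ} (hy : y ∈ Cx K)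
    (hxy : sup x ⊆ sup y) {a b : ℝ} (ha : 0 ≤ a) (hb : 0 ≤ b) (hab : a + b = 1) :
    a • x + b • y ∈ Cx K ∧ sup x ⊆ sup (a • x + b • y) := by
  have hmem := convex_stdSimplex ℝ V hx.1 hy.1 ha hb hab
  rcases eq_or_lt_of_le ha with ha0 | ha0
  · have hb1 : b = 1 := by linarith
    rw [← ha0, hb1]
    simp only [zero_smul, one_smul, zero_add]
    exact ⟨hy, hxy⟩
  rcases eq_or_lt_of_le hb with hb0 | hb0
  · have ha1 : a = 1 := by linarith
    rw [← hb0, ha1]
    simp only [zero_smul, one_smul, add_zero]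
    exact ⟨hx, Finset.Subset.refl _⟩
  have hs := sup_comb (x := x) (y := y) (fun i => hx.1.1 i) (fun i => hy.1.1 i) ha0 hb0
  rw [Finset.union_eq_right.mpr hxy] at hs
  exact ⟨⟨hmem, by rw [hs]; exact hy.2⟩, by rw [hs]; exact hxy⟩

lemma star_ost {K : Set (Finset V)} {v : V} (hv : ({v} : Finset V) ∈ K) :
    StarConvex ℝ (Pi.single v (1 : ℝ) : V → ℝ) (ost K v) := by
  intro y hy a b ha hb hab
  have hx : (Pi.single v (1 : ℝ) : V → ℝ) ∈ Cx K := ⟨single_mem v, by rw [sup_single]; exact hv⟩
  have := star_up K hx hy.1 (by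
    rw [sup_single]
    intro i hi
    rw [Finset.mem_singleton] at hi
    subst hi
    exact mem_sup.mpr hy.2) ha hb hab
  refine ⟨this.1, ?_⟩
  have h2 := this.2
  rw [sup_single] at h2
  exact mem_sup.mp (h2 (Finset.mem_singleton_self v))

/-- vertex as a point of the realisation -/
noncomputable def vt {K : Set (Finset V)} {v : V} (hv : ({v} : Finset V) ∈ K) : ↥(Cx K) :=
  ⟨Pi.single v (1 : ℝ), single_mem v, by rw [sup_single]; exact hv⟩

/-- two paths inside a simply connected subset are homotopic -/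
lemma homotopic_of_mem {E : Type} [TopologicalSpace E] {S T : Set E} (hTS : T ⊆ S)
    [SimplyConnectedSpace ↥T] {x y : ↥S} (γ γ' : Path x y) (h : ∀ t, (γ t : E) ∈ T)
    (h' : ∀ t, (γ' t : E) ∈ T) : γ.Homotopic γ' := by
  have hx : (x : E) ∈ T := by simpa using h 0
  have hy : (y : E) ∈ T := by simpa using h 1
  let δ : Path (⟨x, hx⟩ : ↥T) ⟨y, hy⟩ :=
    { toFun := fun t => ⟨γ t, h t⟩
      continuous_toFun := by fun_prop
      source' := by simp
      target' := by simp }
  let δ' : Path (⟨x, hx⟩ : ↥T) ⟨y, hy⟩ :=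
    { toFun := fun t => ⟨γ' t, h' t⟩
      continuous_toFun := by fun_prop
      source' := by simp
      target' := by simp }
  have h1 : δ.Homotopic δ' := SimplyConnectedSpace.paths_homotopic δ δ'
  let f : C(↥T, ↥S) := ⟨Set.inclusion hTS, continuous_inclusion hTS⟩
  exact h1.map f

lemma scs_clo {s : Finset V} (hs : s.Nonempty) : SimplyConnectedSpace ↥(clo s) := by
  obtain ⟨i, hi⟩ := hs
  have : ContractibleSpace ↥(clo s) := (convex_clo s).contractibleSpace
    ⟨Pi.single i 1, single_mem i, by rw [sup_single]; simpa using hi⟩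
  infer_instance

lemma scs_ost {K : Set (Finset V)} {v : V} (hv : ({v} : Finset V) ∈ K) :
    SimplyConnectedSpace ↥(ost K v) := by
  have : ContractibleSpace ↥(ost K v) := (star_ost hv).contractibleSpace
    ⟨Pi.single v 1, ⟨single_mem v, by rw [sup_single]; exact hv⟩, by simp⟩
  infer_instance

end Pool.Agent.SC.Geo
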